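import Pool.Agent.Lib.MP_b1a3a4_al.MVS.Interfaces

/-!
# Project MVS, module FPEXT: exact sequences and type `FP_n`
-/

set_option linter.all false

namespace Pool.Agent.Lib.MP_b1a3a4_al.MVS.H65

open Finsupp Pool.Agent.Lib.MP_b1a3a4_al.MVS

/-- invariance under linear equivalences -/
theorem fp_equiv (R : Type) [Ring R] : ∀ (n : ℕ) (A B : Type) [AddCommGroup A] [AddCommGroup B]
    [Module R A] [Module R B], (A ≃ₗ[R] B) → IsFP R n A → IsFP R n B := by
  intro n
  cases n with
  | zero =>
    intro A B _ _ _ _ e h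
    haveI : Module.Finite R A := h
    exact Module.Finite.equiv e
  | succ n =>
    intro A B _ _ _ _ e h
    obtain ⟨r, f, hf, hk⟩ := h
    refine ⟨r, e.toLinearMap ∘ₗ f, e.surjective.comp hf, ?_⟩
    have h1 : LinearMap.ker (e.toLinearMap ∘ₗ f) = LinearMap.ker f := by
      ext x
      simp
    rw [h1]
    exact hk

/-- a presentation with two blocks -/
theorem fp_of_prod (R : Type) [Ring R] (n a b : ℕ) (A : Type) [AddCommGroup A] [Module R A]
    (f : ((Fin a →₀ R) × (Fin b →₀ R)) →ₗ[R] A) (hf : Function.Surjective f)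
    (hk : IsFP R n (LinearMap.ker f)) : IsFP R (n + 1) A := by
  let e : (Fin (a + b) →₀ R) ≃ₗ[R] (Fin a →₀ R) × (Fin b →₀ R) :=
    (Finsupp.domLCongr finSumFinEquiv.symm).trans (Finsupp.sumFinsuppLEquivProdFinsupp R)
  refine ⟨a + b, f ∘ₗ e.toLinearMap, hf.comp e.surjective, ?_⟩
  have h1 : LinearMap.ker (f ∘ₗ e.toLinearMap) = (LinearMap.ker f).comap e.toLinearMap :=
    LinearMap.ker_comp _ _
  rw [h1]
  exact fp_equiv R n _ _ (LinearEquiv.ofSubmodule' e (LinearMap.ker f)).symm hk

/-- extensions -/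
theorem fp_ext (R : Type) [Ring R] : ∀ (n : ℕ) (A' A A'' : Type) [AddCommGroup A']
    [AddCommGroup A] [AddCommGroup A''] [Module R A'] [Module R A] [Module R A'']
    (i : A' →ₗ[R] A) (p : A →ₗ[R] A''), Function.Injective i → Function.Surjective p →
    (∀ x, p x = 0 ↔ ∃ y, i y = x) → IsFP R n A' → IsFP R n A'' → IsFP R n A := by
  intro n
  induction n with
  | zero =>
    intro A' A A'' _ _ _ _ _ _ i p hi hp hex h' h''
    haveI : Module.Finite R A' := h'
    haveI : Module.Finite R A'' := h''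
    refine ⟨Submodule.fg_of_fg_map_of_fg_inf_ker p ?_ ?_⟩
    · rw [Submodule.map_top, LinearMap.range_eq_top.2 hp]
      exact Module.Finite.fg_top
    · have h1 : (⊤ : Submodule R A) ⊓ LinearMap.ker p = LinearMap.range i := by
        ext x
        simp only [Submodule.mem_inf, Submodule.mem_top, true_and, LinearMap.mem_ker,
          LinearMap.mem_range]
        exact hex x
      rw [h1, LinearMap.range_eq_map]
      exact Submodule.FG.map i Module.Finite.fg_top
  | succ n ih =>
    intro A' A A'' _ _ _ _ _ _ i p hi hp hex h' h''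
    obtain ⟨a, f', hf', hk'⟩ := h'
    obtain ⟨b, f'', hf'', hk''⟩ := h''
    -- lift `f''` to `A`
    choose t ht using fun j : Fin b => hp (f'' (single j 1))
    let g : (Fin b →₀ R) →ₗ[R] A := Finsupp.linearCombination R t
    have hg : ∀ y, p (g y) = f'' y := by
      intro y
      have : p ∘ₗ g = f'' := by
        apply lin_ext
        intro x
        simp [g, ht]
      exact LinearMap.congr_fun this y
    let f : ((Fin a →₀ R) × (Fin b →₀ R)) →ₗ[R] A := LinearMap.coprod (i ∘ₗ f') g
    have hfv : ∀ x y, f (x, y) = i (f' x) + g y := fun x y => by simp [f]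
    have hi0 : ∀ y, p (i y) = 0 := fun y => (hex _).2 ⟨y, rfl⟩
    refine fp_of_prod R n a b A f ?_ ?_
    · intro z
      obtain ⟨y, hy⟩ := hf'' (p z)
      obtain ⟨w, hw⟩ := (hex (z - g y)).1 (by rw [map_sub, hg, hy, sub_self])
      obtain ⟨x, hx⟩ := hf' w
      exact ⟨(x, y), by rw [hfv, hx, hw]; abel⟩
    · -- the kernels
      let i₂ : LinearMap.ker f' →ₗ[R] LinearMap.ker f :=
        LinearMap.codRestrict (LinearMap.ker f)
          ((LinearMap.inl R (Fin a →₀ R) (Fin b →₀ R)) ∘ₗ (LinearMap.ker f').subtype) (by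
            intro x
            rw [LinearMap.mem_ker]
            show f ((x : Fin a →₀ R), 0) = 0
            rw [hfv, (LinearMap.mem_ker.1 x.2), map_zero, map_zero, add_zero])
      let p₂ : LinearMap.ker f →ₗ[R] LinearMap.ker f'' :=
        LinearMap.codRestrict (LinearMap.ker f'')
          ((LinearMap.snd R (Fin a →₀ R) (Fin b →₀ R)) ∘ₗ (LinearMap.ker f).subtype) (by
            rintro ⟨⟨x, y⟩, hxy⟩
            rw [LinearMap.mem_ker]
            show f'' y = 0
            have h1 : i (f' x) + g y = 0 := by rw [← hfv]; exact hxy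
            have h2 := congrArg p h1
            rwa [map_add, hi0, zero_add, hg, map_zero] at h2)
      refine ih _ _ _ i₂ p₂ ?_ ?_ ?_ hk' hk''
      · intro x x' hxx
        have h1 := congrArg (fun z : LinearMap.ker f => (z : (Fin a →₀ R) × (Fin b →₀ R)).1) hxx
        exact Subtype.ext h1
      · rintro ⟨y, hy⟩
        obtain ⟨w, hw⟩ := (hex (g y)).1 (by rw [hg]; exact hy)
        obtain ⟨x, hx⟩ := hf' w
        refine ⟨⟨(-x, y), ?_⟩, ?_⟩
        · rw [LinearMap.mem_ker, hfv, map_neg, hx, map_neg, hw, neg_add_cancel]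
        · exact Subtype.ext rfl
      · rintro ⟨⟨x, y⟩, hxy⟩
        constructor
        · intro h
          have hy : y = 0 := congrArg Subtype.val h
          subst hy
          have h1 : i (f' x) + g 0 = 0 := by rw [← hfv]; exact hxy
          rw [map_zero, add_zero] at h1
          have h2 : f' x = 0 := hi (by rw [h1, map_zero])
          exact ⟨⟨x, h2⟩, Subtype.ext rfl⟩
        · rintro ⟨z, hz⟩
          have h1 := congrArg (fun z : LinearMap.ker f =>
            (z : (Fin a →₀ R) × (Fin b →₀ R)).2) hz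
          exact Subtype.ext h1.symm

theorem fp_down (R : Type) [Ring R] : ∀ (n : ℕ) (A : Type) [AddCommGroup A] [Module R A],
    IsFP R (n + 1) A → IsFP R n A := by
  intro n
  induction n with
  | zero =>
    intro A _ _ h
    obtain ⟨r, f, hf, -⟩ := h
    exact Module.Finite.of_surjective f hf
  | succ n ih =>
    intro A _ _ h
    obtain ⟨r, f, hf, hk⟩ := h
    exact ⟨r, f, hf, ih _ hk⟩

/-- FPEXT -/
theorem fpext : FpextStatement := by
  intro R _ A' A A'' _ _ _ _ _ _ i p hi hp hex n
  refine ⟨fp_ext R n A' A A'' i p hi hp hex, ?_, fp_down R n A⟩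
  intro h' h
  obtain ⟨r, f, hf, hk⟩ := h
  refine ⟨r, p ∘ₗ f, hp.comp hf, ?_⟩
  let ei : A' ≃ₗ[R] LinearMap.range i := LinearEquiv.ofInjective i hi
  have hrange : ∀ x : LinearMap.ker (p ∘ₗ f), f x ∈ LinearMap.range i := fun x =>
    (hex _).1 x.2
  let i₂ : LinearMap.ker f →ₗ[R] LinearMap.ker (p ∘ₗ f) :=
    Submodule.inclusion (fun x hx => by
      rw [LinearMap.mem_ker] at hx ⊢
      show p (f x) = 0
      rw [hx, map_zero])
  let p₂ : LinearMap.ker (p ∘ₗ f) →ₗ[R] A' :=
    ei.symm.toLinearMap ∘ₗ LinearMap.codRestrict (LinearMap.range i)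
      (f ∘ₗ (LinearMap.ker (p ∘ₗ f)).subtype) hrange
  have hp₂ : ∀ x, i (p₂ x) = f x := by
    intro x
    have h1 : (ei (p₂ x) : A) = i (p₂ x) := rfl
    rw [← h1]
    show ((ei (ei.symm _) : LinearMap.range i) : A) = f x
    rw [LinearEquiv.apply_symm_apply]
    rfl
  refine fp_ext R n _ _ _ i₂ p₂ ?_ ?_ ?_ hk h'
  · exact Submodule.inclusion_injective _
  · intro y
    obtain ⟨x, hx⟩ := hf (i y)
    refine ⟨⟨x, ?_⟩, ?_⟩
    · rw [LinearMap.mem_ker]
      show p (f x) = 0
      rw [hx]
      exact (hex _).2 ⟨y, rfl⟩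
    · apply hi
      rw [hp₂]
      exact hx
  · intro x
    constructor
    · intro h
      have h1 : f x = 0 := by rw [← hp₂, h, map_zero]
      exact ⟨⟨x, h1⟩, Subtype.ext rfl⟩
    · rintro ⟨y, rfl⟩
      apply hi
      rw [hp₂, map_zero]
      exact y.2

end Pool.Agent.Lib.MP_b1a3a4_al.MVS.H65
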