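import Pool.Agent.Lib.MP_b1a3a4_al.MVS.H65.FpLin

/-!
# Project MVS, module FPGRP: extensions of groups
-/

set_option linter.all false

namespace Pool.Agent.Lib.MP_b1a3a4_al.MVS.H65

open Finsupp Pool.Agent.Lib.MP_b1a3a4_al.MVS

theorem rst_smul {A B : Type} [Ring A] [Ring B] (f : A →+* B) (M : Type) [AddCommGroup M]
    [Module B M] (a : A) (x : Rst f M) :
    a • x = (show Rst f M from (f a • (show M from x) : M)) := rfl

/-- a linear map over `B` is linear over `A` -/
noncomputable def rstMap {A B : Type} [Ring A] [Ring B] (f : A →+* B) {M N : Type}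
    [AddCommGroup M] [AddCommGroup N] [Module B M] [Module B N] (g : M →ₗ[B] N) :
    Rst f M →ₗ[A] Rst f N where
  toFun x := g x
  map_add' x y := g.map_add x y
  map_smul' a x := g.map_smul (f a) x

/-- restriction commutes with finite direct sums -/
noncomputable def rstFree {A B : Type} [Ring A] [Ring B] (f : A →+* B) (r : ℕ) :
    (Fin r →₀ Rst f B) ≃ₗ[A] Rst f (Fin r →₀ B) where
  toFun x := (show (Fin r →₀ B) from x)
  invFun x := (show (Fin r →₀ B) from x)
  map_add' x y := rfl
  map_smul' a x := by
    refine Finsupp.ext fun i => ?_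
    rfl
  left_inv x := rfl
  right_inv x := rfl

/-- change of rings -/
theorem fp_rst {A B : Type} [Ring A] [Ring B] (f : A →+* B) : ∀ (n : ℕ),
    IsFP A n (Rst f B) → ∀ (M : Type) [AddCommGroup M] [Module B M], IsFP B n M →
    IsFP A n (Rst f M) := by
  intro n
  induction n with
  | zero =>
    intro hB M _ _ hM
    haveI : Module.Finite B M := hM
    obtain ⟨r, g, hg⟩ := Module.Finite.exists_fin' B M
    have hB' : Module.Finite A (Fin r →₀ Rst f B) := fp_sum A 0 _ hB r
    let e : (Fin r → B) ≃ₗ[B] (Fin r →₀ B) := (Finsupp.linearEquivFunOnFinite B B (Fin r)).symm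
    let g' : (Fin r →₀ B) →ₗ[B] M := g ∘ₗ e.symm.toLinearMap
    have hg' : Function.Surjective g' := hg.comp e.symm.surjective
    exact Module.Finite.of_surjective ((rstMap f g') ∘ₗ (rstFree f r).toLinearMap)
      (hg'.comp (rstFree f r).surjective)
  | succ n ih =>
    intro hB M _ _ hM
    obtain ⟨r, g, hg, hk⟩ := hM
    have h1 : IsFP A n (Rst f (LinearMap.ker g)) := ih (fp_down A n _ hB) _ hk
    have h2 : IsFP A (n + 1) (Rst f (Fin r →₀ B)) :=
      fp_equiv A (n + 1) _ _ (rstFree f r) (fp_sum A (n + 1) _ hB r)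
    refine (fpext A (Rst f (LinearMap.ker g)) (Rst f (Fin r →₀ B)) (Rst f M)
      (rstMap f (LinearMap.ker g).subtype) (rstMap f g) ?_ hg ?_ n).2.1 h1 h2
    · exact Subtype.val_injective
    · intro x
      constructor
      · intro h
        exact ⟨⟨x, h⟩, rfl⟩
      · rintro ⟨y, rfl⟩
        exact y.2

theorem aug_gmap (k G Q : Type) [CommRing k] [Monoid G] [Monoid Q] (π : G →* Q)
    (a : MonoidAlgebra k G) : aug k Q (gmap k π a) = aug k G a := by
  induction a using MonoidAlgebra.induction_linear with
  | zero => simp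
  | add f g hf hg => simp only [map_add, hf, hg]
  | single s c => simp

/-- the trivial module is the restriction of the trivial module -/
noncomputable def trivRst (k G Q : Type) [CommRing k] [Monoid G] [Monoid Q] (π : G →* Q) :
    Rst (gmap k π) (Triv k Q) ≃ₗ[MonoidAlgebra k G] Triv k G where
  toFun x := (show k from x)
  invFun x := (show k from x)
  map_add' x y := rfl
  map_smul' a x := by
    show (aug k Q (gmap k π a) * (show k from x) : k) = (aug k G a * (show k from x) : k)
    rw [aug_gmap]
  left_inv x := rfl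
  right_inv x := rfl

/-- FPGRP -/
theorem fpgrp (hI : FpindStatement) : FpgrpStatement := by
  intro k N G Q _ _ _ _ j π h n hN hQ
  have h1 := hI k N G Q j π h n hN
  exact fp_equiv _ n _ _ (trivRst k G Q π) (fp_rst (gmap k π) n h1 (Triv k Q) hQ)

end Pool.Agent.Lib.MP_b1a3a4_al.MVS.H65
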