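import Pool.Agent.Lib.MP_b1a3a4_al.MVS.H65.FpExt

/-!
# Project MVS, module FPLIN: linear equivalences, free modules, finite direct sums
-/

set_option linter.all false

namespace Pool.Agent.Lib.MP_b1a3a4_al.MVS.H65

open Finsupp Pool.Agent.Lib.MP_b1a3a4_al.MVS

/-- the zero module -/
theorem fp_zero (R : Type) [Ring R] : ∀ (n : ℕ) (A : Type) [AddCommGroup A] [Module R A],
    Subsingleton A → IsFP R n A := by
  intro n
  induction n with
  | zero =>
    intro A _ _ h
    show Module.Finite R A
    infer_instance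
  | succ n ih =>
    intro A _ _ h
    refine ⟨0, 0, fun a => ⟨0, Subsingleton.elim _ _⟩, ih _ ?_⟩
    infer_instance

/-- finitely generated free modules -/
theorem fp_free (R : Type) [Ring R] (n : ℕ) (X : Type) [Finite X] : IsFP R n (X →₀ R) := by
  obtain ⟨r, ⟨e⟩⟩ := Finite.exists_equiv_fin X
  refine fp_equiv R n _ _ (Finsupp.domLCongr e.symm) ?_
  cases n with
  | zero =>
    show Module.Finite R (Fin r →₀ R)
    infer_instance
  | succ n =>
    refine ⟨r, LinearMap.id, Function.surjective_id, fp_zero R n _ ?_⟩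
    rw [LinearMap.ker_id]
    infer_instance

/-- finite direct sums -/
theorem fp_sum (R : Type) [Ring R] (n : ℕ) (A : Type) [AddCommGroup A] [Module R A]
    (hA : IsFP R n A) : ∀ r : ℕ, IsFP R n (Fin r →₀ A) := by
  intro r
  induction r with
  | zero => exact fp_zero R n _ inferInstance
  | succ r ih =>
    let e : (Fin (r + 1) →₀ A) ≃ₗ[R] (Fin r →₀ A) × (Fin 1 →₀ A) :=
      (Finsupp.domLCongr finSumFinEquiv.symm).trans (Finsupp.sumFinsuppLEquivProdFinsupp R)
    refine fp_equiv R n _ _ e.symm ?_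
    refine fp_ext R n (Fin r →₀ A) _ (Fin 1 →₀ A) (LinearMap.inl R _ _) (LinearMap.snd R _ _)
      LinearMap.inl_injective LinearMap.snd_surjective ?_ ih ?_
    · rintro ⟨x, y⟩
      constructor
      · intro h
        have hy : y = 0 := h
        exact ⟨x, by rw [hy]; rfl⟩
      · rintro ⟨z, hz⟩
        exact (congrArg Prod.snd hz).symm
    · exact fp_equiv R n _ _ (Finsupp.LinearEquiv.finsuppUnique R A (Fin 1)).symm hA

/-- FPLIN -/
theorem fplin : FplinStatement := by
  intro R _ n
  refine ⟨fun A B _ _ _ _ e h => fp_equiv R n A B e h, fun X hX => fp_free R n X, ?_⟩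
  intro X A _ _ hX hA
  obtain ⟨r, ⟨e⟩⟩ := Finite.exists_equiv_fin X
  exact fp_equiv R n _ _ (Finsupp.domLCongr e.symm) (fp_sum R n A hA r)

end Pool.Agent.Lib.MP_b1a3a4_al.MVS.H65
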